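import Pool.Agent.U180.NS.Main

/-! # Sequences whose points are placed at random in given small cubes: the final form -/

set_option autoImplicit false

open MeasureTheory ProbabilityTheory Filter Topology Finset

namespace Pool.Agent.U180.NS

lemma pow_eventually (e : ℕ) : ∀ᶠ k : ℕ in atTop, (k : ℝ) ^ e ≤ 2 ^ k := by
  have h := tendsto_pow_const_div_const_pow_of_one_lt e (r := (2 : ℝ)) (by norm_num)
  filter_upwards [h.eventually (gt_mem_nhds (show (0 : ℝ) < 1 by norm_num))] with k hk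
  rw [div_lt_one (by positivity)] at hk
  exact hk.le

/-- the noise at which the discrepancy is at least `(log N)^d / N` -/
lemma second {d : ℕ} (hd : 2 ≤ d) {c : ℝ} (hc : 0 < c) (n : ℕ → ℕ)
    (hn : ∀ᶠ k : ℕ in atTop, 4 * Real.log k ^ 2 ≤ n k ∧ n k * (k : ℝ) ^ (2 * d - 1) ≤ 2 ^ k) :
    ∀ᶠ k : ℕ in atTop, (4 * Real.log k ^ 2 ≤ n k ∧ n k * Real.log (n k) ≤ c * 2 ^ k) ∧
      ∀ N : ℕ, (N = 2 ^ k ∨ N = 2 ^ (k + 1)) →
        c / 2 * Real.log N ^ d ≤ c * Real.sqrt (2 ^ k * Real.log (n k) / n k) := by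
  have hlog : Tendsto (fun k : ℕ => 4 * Real.log (k : ℝ) ^ 2) atTop atTop := by
    have h1 : Tendsto (fun k : ℕ => Real.log (k : ℝ)) atTop atTop :=
      Real.tendsto_log_atTop.comp tendsto_natCast_atTop_atTop
    exact ((tendsto_pow_atTop (two_ne_zero)).comp h1).const_mul_atTop (by norm_num)
  have hsq : Tendsto (fun k : ℕ => (k : ℝ) ^ 2) atTop atTop :=
    (tendsto_pow_atTop (two_ne_zero)).comp tendsto_natCast_atTop_atTop
  filter_upwards [hn, hlog.eventually_ge_atTop 3, hsq.eventually_ge_atTop (1 / c),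
    eventually_ge_atTop 3, pow_eventually (4 * d)] with k h1 h2 h3 h4 h5
  obtain ⟨h1a, h1b⟩ := h1
  have hk3 : (3 : ℝ) ≤ k := by exact_mod_cast h4
  have hk0 : (0 : ℝ) < k := by linarith
  have hn3 : (3 : ℝ) ≤ n k := h2.trans h1a
  have hn0 : (0 : ℝ) < n k := by linarith
  have h2k : (0 : ℝ) < 2 ^ k := by positivity
  have hl2a : (1 : ℝ) / 2 ≤ Real.log 2 := by linarith [Real.log_two_gt_d9]
  have hl2b : Real.log 2 ≤ 3 / 4 := by linarith [Real.log_two_lt_d9]
  have hl2 : Real.log ((2 : ℝ) ^ k) = k * Real.log 2 := by rw [Real.log_pow]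
  have hnle : (n k : ℝ) ≤ 2 ^ k := by
    have h6 : (1 : ℝ) ≤ (k : ℝ) ^ (2 * d - 1) := one_le_pow₀ (by linarith)
    nlinarith
  have hlogn : Real.log (n k) ≤ k := by
    have h6 := Real.log_le_log hn0 hnle
    rw [hl2] at h6
    nlinarith
  have hlogn0 : 0 ≤ Real.log (n k) := Real.log_nonneg (by linarith)
  refine ⟨⟨h1a, ?_⟩, ?_⟩
  · have h6 : (k : ℝ) ^ 3 ≤ (k : ℝ) ^ (2 * d - 1) := pow_le_pow_right₀ (by linarith) (by omega)
    have h7 : (n k : ℝ) * (k : ℝ) ^ 3 ≤ 2 ^ k :=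
      (mul_le_mul_of_nonneg_left h6 hn0.le).trans h1b
    have h8 : (1 : ℝ) ≤ c * (k : ℝ) ^ 2 := by
      rw [div_le_iff₀ hc] at h3
      linarith
    calc (n k : ℝ) * Real.log (n k) ≤ n k * k := mul_le_mul_of_nonneg_left hlogn hn0.le
      _ ≤ (n k * k) * (c * (k : ℝ) ^ 2) := le_mul_of_one_le_right (by positivity) h8
      _ = c * ((n k : ℝ) * (k : ℝ) ^ 3) := by ring
      _ ≤ c * 2 ^ k := mul_le_mul_of_nonneg_left h7 hc.le
  · intro N hN
    have hN1 : (1 : ℝ) ≤ N := by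
      rcases hN with rfl | rfl
      · push_cast; exact one_le_pow₀ (by norm_num)
      · push_cast; exact one_le_pow₀ (by norm_num)
    have hlN0 : 0 ≤ Real.log N := Real.log_nonneg hN1
    have hlN : Real.log N ≤ k := by
      have h6 : (N : ℝ) ≤ 2 ^ (k + 1) := by
        rcases hN with rfl | rfl
        · push_cast; exact pow_le_pow_right₀ (by norm_num) (by omega)
        · push_cast; exact le_rfl
      have h7 := Real.log_le_log (by linarith) h6
      rw [Real.log_pow] at h7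
      push_cast at h7
      nlinarith
    have hkey : (k : ℝ) ^ (2 * d) / 4 ≤ 2 ^ k * Real.log (n k) / n k := by
      rw [le_div_iff₀ hn0]
      rcases le_or_gt ((2 : ℝ) ^ k) ((n k : ℝ) ^ 2) with hA | hA
      · have h6 : (k : ℝ) / 4 ≤ Real.log (n k) := by
          have h7 := Real.log_le_log h2k hA
          rw [hl2, Real.log_pow] at h7
          push_cast at h7
          nlinarith
        have e : (k : ℝ) ^ (2 * d) = (k : ℝ) ^ (2 * d - 1) * k := by
          rw [← pow_succ]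
          congr 1
          omega
        rw [e]
        calc (k : ℝ) ^ (2 * d - 1) * k / 4 * n k = (n k * (k : ℝ) ^ (2 * d - 1)) * (k / 4) := by ring
          _ ≤ 2 ^ k * (k / 4) := mul_le_mul_of_nonneg_right h1b (by positivity)
          _ ≤ 2 ^ k * Real.log (n k) := mul_le_mul_of_nonneg_left h6 h2k.le
      · have h6 : (1 : ℝ) ≤ Real.log (n k) := by
          rw [Real.le_log_iff_exp_le hn0]
          linarith [Real.exp_one_lt_d9]
        have h7 : ((k : ℝ) ^ (2 * d) * n k) ^ 2 ≤ (2 ^ k) ^ 2 := by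
          calc ((k : ℝ) ^ (2 * d) * n k) ^ 2 = (k : ℝ) ^ (4 * d) * (n k : ℝ) ^ 2 := by
                rw [mul_pow, ← pow_mul]
                congr 2
                ring
            _ ≤ 2 ^ k * 2 ^ k := mul_le_mul h5 hA.le (by positivity) h2k.le
            _ = (2 ^ k) ^ 2 := by ring
        have h8 : (k : ℝ) ^ (2 * d) * n k ≤ 2 ^ k := le_of_sq_le_sq h7 h2k.le
        have h9 : (0 : ℝ) ≤ (k : ℝ) ^ (2 * d) * n k := by positivity
        nlinarith
    have h10 : Real.log N ^ d / 2 ≤ Real.sqrt (2 ^ k * Real.log (n k) / n k) := by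
      apply Real.le_sqrt_of_sq_le
      refine le_trans ?_ hkey
      have h11 : Real.log N ^ d ≤ (k : ℝ) ^ d := pow_le_pow_left₀ hlN0 hlN d
      have h12 : 0 ≤ Real.log N ^ d := by positivity
      calc (Real.log N ^ d / 2) ^ 2 = (Real.log N ^ d) ^ 2 / 4 := by ring
        _ ≤ ((k : ℝ) ^ d) ^ 2 / 4 := by
            have := pow_le_pow_left₀ h12 h11 2
            linarith
        _ = (k : ℝ) ^ (2 * d) / 4 := by
            rw [← pow_mul]
            congr 2
            ring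
    calc c / 2 * Real.log N ^ d = c * (Real.log N ^ d / 2) := by ring
      _ ≤ c * Real.sqrt (2 ^ k * Real.log (n k) / n k) := mul_le_mul_of_nonneg_left h10 hc.le

/-- from the number of points in a cube to the discrepancy -/
lemma to_disc {d : ℕ} (z : ℕ → Fin d → ℝ) (N : ℕ) (hN : 0 < N) {t R : ℝ} (ht0 : 0 ≤ t) (ht1 : t < 1)
    (h : R ≤ |(countIn z N (cube d t) : ℝ) - N * t ^ d|) :
    ENNReal.ofReal (R / N) ≤ discrepancy z N := by
  refine (ENNReal.ofReal_le_ofReal ?_).trans (le_discrepancy z N ht0 ht1)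
  have hN0 : (0 : ℝ) < N := by exact_mod_cast hN
  have e : (countIn z N (cube d t) : ℝ) / N - t ^ d
      = ((countIn z N (cube d t) : ℝ) - N * t ^ d) / N := by
    field_simp
  rw [e, abs_div, abs_of_pos hN0]
  exact div_le_div_of_nonneg_right h hN0.le

/-- the points are almost surely in `[0,1)^d` -/
lemma pts_mem {Ω : Type} [MeasurableSpace Ω] {P : Measure Ω} {d : ℕ} {u : ℕ → Ω → Fin d → ℝ}
    (hu : IsNoise P u) (n : ℕ → ℕ) (a : ℕ → Fin d → ℝ) (hn : ∀ k, 1 ≤ n k)
    (ha : ∀ i j, 0 ≤ a i j ∧ a i j + 1 / n (Nat.log 2 i) ≤ 1) :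
    ∀ᵐ ω ∂P, ∀ i j, 0 ≤ pts n a u ω i j ∧ pts n a u ω i j < 1 := by
  filter_upwards [ae_lt_one hu] with ω hω i j
  have h1 : (0 : ℝ) ≤ u i ω j := (hω i).1.1 j
  have h2 := (hω i).2 j
  have h3 : (0 : ℝ) < n (Nat.log 2 i) := by exact_mod_cast hn _
  have h4 := ha i j
  unfold pts
  constructor
  · have := h4.1
    positivity
  · have h5 : u i ω j / n (Nat.log 2 i) < 1 / n (Nat.log 2 i) := div_lt_div_of_pos_right h2 h3
    linarith

end Pool.Agent.U180.NS
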