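import Pool.Agent.U180.SN.Num

/-! # Sequences whose points are placed at random in given small cubes -/

set_option autoImplicit false

open MeasureTheory ProbabilityTheory Filter Topology Finset

namespace Pool.Agent.U180.NS

/-- The `u_i` are independent and uniform in `[0,1]^d`. -/
structure IsNoise {Ω : Type} [MeasurableSpace Ω] (P : Measure Ω) {d : ℕ} (u : ℕ → Ω → Fin d → ℝ) :
    Prop where
  prob : IsProbabilityMeasure P
  meas : ∀ i, Measurable (u i)
  indep : iIndepFun u P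
  law : ∀ i, P.map (u i) = volume.restrict (Set.Icc (0 : Fin d → ℝ) 1)

/-- The points `z_i = a_i + u_i / n_k`, where `2^k ≤ i < 2^(k+1)` (`k = 0` for `i = 0`). -/
noncomputable def pts {Ω : Type} {d : ℕ} (n : ℕ → ℕ) (a : ℕ → Fin d → ℝ) (u : ℕ → Ω → Fin d → ℝ)
    (ω : Ω) (i : ℕ) : Fin d → ℝ :=
  fun j => a i j + u i ω j / n (Nat.log 2 i)

/-- the bad set of `lower_num` -/
def badSet {d : ℕ} (c : ℝ) (m n : ℕ) (a : Fin m → Fin d → ℝ) : Set (Fin m → Fin d → ℝ) :=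
  {u : Fin m → Fin d → ℝ | (∀ i, u i ∈ Set.Icc (0 : Fin d → ℝ) 1) ∧
      ∀ t : ℝ, 0 ≤ t → t < 1 →
        |(((univ : Finset (Fin m)).filter fun i => ∀ j, a i j + 1 / n * u i j ≤ t).card : ℝ)
          - m * t ^ d| ≤ m * (c * Real.sqrt (Real.log n / (n * m)))}

/-- the probability that the points of a block are in a given set -/
lemma prob_block {Ω : Type} [MeasurableSpace Ω] {P : Measure Ω} {d : ℕ} {u : ℕ → Ω → Fin d → ℝ}
    (hu : IsNoise P u) (s m : ℕ) (S : Set (Fin m → Fin d → ℝ)) :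
    P {ω | (fun i : Fin m => u (s + i) ω) ∈ S} ≤ volume S := by
  have := hu.prob
  have hind : iIndepFun (fun (i : Fin m) ω => u (s + i) ω) P := by
    have h := hu.indep.precomp (g := fun i : Fin m => s + (i : ℕ)) (by
      intro i j hij
      have : s + (i : ℕ) = s + (j : ℕ) := hij
      exact Fin.ext (by omega))
    exact h
  have hm : ∀ i : Fin m, AEMeasurable (fun ω => u (s + i) ω) P := fun i => (hu.meas _).aemeasurable
  have hmap := (iIndepFun_iff_map_fun_eq_pi_map hm).1 hind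
  have h1 : P {ω | (fun i : Fin m => u (s + i) ω) ∈ S}
      ≤ (P.map fun ω (i : Fin m) => u (s + i) ω) S :=
    Measure.le_map_apply (aemeasurable_pi_lambda _ hm) S
  refine h1.trans ?_
  rw [hmap]
  have h2 : (Measure.pi fun i : Fin m => P.map fun ω => u (s + i) ω)
      = Measure.pi fun _ : Fin m => (volume : Measure (Fin d → ℝ)).restrict (Set.Icc 0 1) := by
    congr 1
    funext i
    exact hu.law _
  rw [h2]
  rw [← Measure.restrict_pi_pi]
  exact Measure.restrict_apply_le _ _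

/-- `B` is an axis-parallel box contained in `[0,1)^d`: a product of subintervals of `[0,1)` of any
kind. -/
def IsBox {d : ℕ} (B : Set (Fin d → ℝ)) : Prop :=
  ∃ I : Fin d → Set ℝ, (∀ i, (I i).OrdConnected ∧ I i ⊆ Set.Ico 0 1) ∧ B = Set.univ.pi I

open Classical in
/-- `A_N(B)`: the number of indices `0 ≤ n < N` with `z_n ∈ B`. -/
noncomputable def countIn {d : ℕ} (z : ℕ → Fin d → ℝ) (N : ℕ) (B : Set (Fin d → ℝ)) : ℕ :=
  ((Finset.range N).filter (fun n => z n ∈ B)).card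

/-- `D_N`: the supremum of `|A_N(B) / N - λ(B)|` over all axis-parallel boxes `B` in `[0,1)^d`. -/
noncomputable def discrepancy {d : ℕ} (z : ℕ → Fin d → ℝ) (N : ℕ) : ENNReal :=
  ⨆ (B : Set (Fin d → ℝ)) (_ : IsBox B),
    ENNReal.ofReal |(countIn z N B : ℝ) / N - (volume B).toReal|

/-- the cube `[0,t]^d` -/
def cube (d : ℕ) (t : ℝ) : Set (Fin d → ℝ) := Set.Icc (0 : Fin d → ℝ) fun _ => t

lemma cube_isBox {d : ℕ} {t : ℝ} (ht : t < 1) : IsBox (cube d t) := by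
  refine ⟨fun _ => Set.Icc 0 t, fun _ => ⟨Set.ordConnected_Icc, fun x hx => ⟨hx.1, hx.2.trans_lt ht⟩⟩, ?_⟩
  unfold cube
  rw [← Set.pi_univ_Icc]
  rfl

lemma cube_volume {d : ℕ} {t : ℝ} (ht : 0 ≤ t) : (volume (cube d t)).toReal = t ^ d := by
  unfold cube
  have h := Real.volume_Icc_pi_toReal (a := (0 : Fin d → ℝ)) (b := fun _ => t) (fun _ => ht)
  rw [h]
  simp

lemma le_discrepancy {d : ℕ} (z : ℕ → Fin d → ℝ) (N : ℕ) {t : ℝ} (ht0 : 0 ≤ t) (ht1 : t < 1) :
    ENNReal.ofReal |(countIn z N (cube d t) : ℝ) / N - t ^ d| ≤ discrepancy z N := by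
  unfold discrepancy
  have h := le_iSup₂ (f := fun (B : Set (Fin d → ℝ)) (_ : IsBox B) =>
    ENNReal.ofReal |(countIn z N B : ℝ) / N - (volume B).toReal|) (cube d t) (cube_isBox ht1)
  rw [← cube_volume (d := d) ht0]
  exact h

open Classical in
/-- the points of a block -/
lemma count_block {d : ℕ} (z : ℕ → Fin d → ℝ) (k : ℕ) (B : Set (Fin d → ℝ)) :
    (countIn z (2 ^ (k + 1)) B : ℝ) - countIn z (2 ^ k) B
      = (((univ : Finset (Fin (2 ^ k))).filter fun i : Fin (2 ^ k) => z (2 ^ k + (i : ℕ)) ∈ B).card : ℝ) := by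
  unfold countIn
  rw [Finset.card_filter, Finset.card_filter, Finset.card_filter]
  have e : 2 ^ (k + 1) = 2 ^ k + 2 ^ k := by ring
  rw [e, Finset.sum_range_add]
  rw [← Fin.sum_univ_eq_sum_range (fun i => if z (2 ^ k + i) ∈ B then 1 else 0) (2 ^ k)]
  push_cast
  rw [add_sub_cancel_left]

lemma log_block {k : ℕ} (i : Fin (2 ^ k)) : Nat.log 2 (2 ^ k + (i : ℕ)) = k := by
  rw [Nat.log_eq_iff (Or.inr ⟨by norm_num, by positivity⟩)]
  have := i.2
  constructor
  · omega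
  · rw [pow_succ]
    omega

/-- off the bad set one of the two discrepancies is large -/
lemma step {Ω : Type} {d : ℕ} {c : ℝ} (n : ℕ → ℕ) (a : ℕ → Fin d → ℝ) (u : ℕ → Ω → Fin d → ℝ)
    (ω : Ω) (k : ℕ) (ha : ∀ i j, 0 ≤ a i j) (hU : ∀ i, u i ω ∈ Set.Icc (0 : Fin d → ℝ) 1)
    (hbad : (fun i : Fin (2 ^ k) => u (2 ^ k + i) ω) ∉
      badSet c (2 ^ k) (n k) fun i => a (2 ^ k + i)) :
    ∃ N : ℕ, (N = 2 ^ k ∨ N = 2 ^ (k + 1)) ∧ ∃ t : ℝ, 0 ≤ t ∧ t < 1 ∧
      c / 2 * Real.sqrt (2 ^ k * Real.log (n k) / n k)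
        ≤ |(countIn (pts n a u ω) N (cube d t) : ℝ) - N * t ^ d| := by
  classical
  unfold badSet at hbad
  simp only [Set.mem_ofPred_eq, not_and, not_forall, not_le, exists_prop] at hbad
  obtain ⟨t, ht0, ht1, ht⟩ := hbad fun i => hU _
  have hset : ((univ : Finset (Fin (2 ^ k))).filter fun i : Fin (2 ^ k) => ∀ j, a (2 ^ k + (i : ℕ)) j
        + 1 / (n k : ℝ) * u (2 ^ k + (i : ℕ)) ω j ≤ t)
      = (univ : Finset (Fin (2 ^ k))).filter fun i : Fin (2 ^ k) =>
          pts n a u ω (2 ^ k + (i : ℕ)) ∈ cube d t := by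
    ext i
    rw [Finset.mem_filter, Finset.mem_filter]
    refine and_congr_right fun _ => ?_
    unfold cube pts
    rw [log_block]
    constructor
    · intro h
      refine ⟨fun j => ?_, fun j => ?_⟩
      · have h1 : (0 : ℝ) ≤ u (2 ^ k + (i : ℕ)) ω j := (hU _).1 j
        have h2 := ha (2 ^ k + (i : ℕ)) j
        show (0 : ℝ) ≤ _
        positivity
      · have h1 := h j
        have e : u (2 ^ k + (i : ℕ)) ω j / (n k : ℝ) = 1 / (n k : ℝ) * u (2 ^ k + (i : ℕ)) ω j := by ring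
        show _ + u (2 ^ k + (i : ℕ)) ω j / (n k : ℝ) ≤ t
        rw [e]
        exact h1
    · intro h j
      have h1 : a (2 ^ k + (i : ℕ)) j + u (2 ^ k + (i : ℕ)) ω j / (n k : ℝ) ≤ t := h.2 j
      have e : u (2 ^ k + (i : ℕ)) ω j / (n k : ℝ) = 1 / (n k : ℝ) * u (2 ^ k + (i : ℕ)) ω j := by ring
      rw [e] at h1
      exact h1
  rw [hset, ← count_block] at ht
  set x : ℝ := (countIn (pts n a u ω) (2 ^ (k + 1)) (cube d t) : ℝ) with hx
  set y : ℝ := (countIn (pts n a u ω) (2 ^ k) (cube d t) : ℝ) with hy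
  have h2 : (0 : ℝ) < 2 ^ k := by positivity
  have hs : ((2 ^ k : ℕ) : ℝ) * (c * Real.sqrt (Real.log (n k) / ((n k : ℝ) * ((2 ^ k : ℕ) : ℝ))))
      = c * Real.sqrt (2 ^ k * Real.log (n k) / n k) := by
    have e1 : (2 : ℝ) ^ k = Real.sqrt (2 ^ k * 2 ^ k) := (Real.sqrt_mul_self h2.le).symm
    push_cast
    calc (2 : ℝ) ^ k * (c * Real.sqrt (Real.log (n k) / ((n k : ℝ) * 2 ^ k)))
        = c * (Real.sqrt (2 ^ k * 2 ^ k) * Real.sqrt (Real.log (n k) / ((n k : ℝ) * 2 ^ k))) := by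
          rw [← e1]; ring
      _ = c * Real.sqrt (2 ^ k * 2 ^ k * (Real.log (n k) / ((n k : ℝ) * 2 ^ k))) := by
          rw [← Real.sqrt_mul (by positivity)]
      _ = c * Real.sqrt (2 ^ k * Real.log (n k) / n k) := by
          congr 2
          rcases Nat.eq_zero_or_pos (n k) with h0 | h0
          · simp [h0]
          · have : (n k : ℝ) ≠ 0 := by positivity
            field_simp
  rw [hs] at ht
  push_cast at ht
  by_contra hcon
  push Not at hcon
  have ha1 := hcon (2 ^ k) (Or.inl rfl) t ht0 ht1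
  have ha2 := hcon (2 ^ (k + 1)) (Or.inr rfl) t ht0 ht1
  rw [← hy] at ha1
  rw [← hx] at ha2
  push_cast at ha1 ha2
  have e2 : x - y - 2 ^ k * t ^ d = (x - 2 ^ (k + 1) * t ^ d) - (y - 2 ^ k * t ^ d) := by ring
  rw [e2] at ht
  have h3 := abs_sub (x - 2 ^ (k + 1) * t ^ d) (y - 2 ^ k * t ^ d)
  linarith

/-- the points are almost surely in `[0,1)^d` -/
lemma ae_lt_one {Ω : Type} [MeasurableSpace Ω] {P : Measure Ω} {d : ℕ} {u : ℕ → Ω → Fin d → ℝ}
    (hu : IsNoise P u) : ∀ᵐ ω ∂P, ∀ i, u i ω ∈ Set.Icc (0 : Fin d → ℝ) 1 ∧ ∀ j, u i ω j < 1 := by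
  rw [ae_all_iff]
  intro i
  have h1 : ∀ᵐ x ∂(P.map (u i)), x ∈ Set.Icc (0 : Fin d → ℝ) 1 ∧ ∀ j, x j < 1 := by
    rw [hu.law i]
    have h2 : ∀ᵐ x ∂(volume : Measure (Fin d → ℝ)), ∀ j, x j ≠ 1 := by
      rw [ae_all_iff]
      intro j
      have h3 : (volume : Measure (Fin d → ℝ)) {f | f j = 1} = 0 := by
        rw [volume_pi]
        exact Measure.pi_hyperplane _ j 1
      rw [ae_iff]
      simpa using h3
    filter_upwards [ae_restrict_mem measurableSet_Icc, ae_restrict_of_ae h2] with x hx hx2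
    exact ⟨hx, fun j => lt_of_le_of_ne (hx.2 j) (hx2 j)⟩
  exact ae_of_ae_map (hu.meas i).aemeasurable h1

/-- the main theorem -/
theorem main {d : ℕ} (hd : 1 ≤ d) : ∃ c : ℝ, 0 < c ∧ c ≤ 1 ∧
    ∀ (Ω : Type) [MeasurableSpace Ω] (P : Measure Ω) (u : ℕ → Ω → Fin d → ℝ) (n : ℕ → ℕ)
      (a : ℕ → Fin d → ℝ), IsNoise P u →
      (∀ i j, 0 ≤ a i j) →
      (∀ᶠ k : ℕ in atTop, 4 * Real.log k ^ 2 ≤ n k ∧ n k * Real.log (n k) ≤ c * 2 ^ k) →
      ∀ᵐ ω ∂P, ∀ᶠ k : ℕ in atTop, ∃ N : ℕ, (N = 2 ^ k ∨ N = 2 ^ (k + 1)) ∧ ∃ t : ℝ, 0 ≤ t ∧ t < 1 ∧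
        c * Real.sqrt (2 ^ k * Real.log (n k) / n k)
          ≤ |(countIn (pts n a u ω) N (cube d t) : ℝ) - N * t ^ d| := by
  obtain ⟨c, hc0, hc1, n₀, hn₀, H⟩ := SN.lower_num hd
  refine ⟨c / 2, by positivity, by linarith, fun Ω _ P u n a hu ha hn => ?_⟩
  have hlog : Tendsto (fun k : ℕ => 4 * Real.log (k : ℝ) ^ 2) atTop atTop := by
    have h1 : Tendsto (fun k : ℕ => Real.log (k : ℝ)) atTop atTop :=
      Real.tendsto_log_atTop.comp tendsto_natCast_atTop_atTop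
    exact ((tendsto_pow_atTop (two_ne_zero)).comp h1).const_mul_atTop (by norm_num)
  have hev : ∀ᶠ k : ℕ in atTop, n₀ ≤ n k ∧ 4 * Real.log k ^ 2 ≤ n k ∧
      n k * Real.log (n k) ≤ c / 2 * 2 ^ k ∧ 1 ≤ k := by
    filter_upwards [hn, hlog.eventually_ge_atTop (n₀ : ℝ), eventually_ge_atTop 1] with k h1 h2 h3
    exact ⟨by exact_mod_cast h2.trans h1.1, h1.1, h1.2, h3⟩
  obtain ⟨K, hK⟩ := eventually_atTop.1 hev
  set bad : ℕ → Set Ω := fun k => {ω | K ≤ k ∧ (fun i : Fin (2 ^ k) => u (2 ^ k + i) ω) ∈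
      badSet c (2 ^ k) (n k) fun i => a (2 ^ k + i)} with hbaddef
  have hb : ∀ k, P (bad k) ≤ ENNReal.ofReal (1 / (k : ℝ) ^ 2) := by
    intro k
    by_cases hk : K ≤ k
    · obtain ⟨h1, h2, h3, h4⟩ := hK k hk
      have hk0 : (0 : ℝ) < k := by exact_mod_cast h4
      have h5 : P (bad k) ≤ volume (badSet c (2 ^ k) (n k) fun i => a (2 ^ k + i)) := by
        refine (measure_mono ?_).trans (prob_block hu (2 ^ k) (2 ^ k) _)
        intro ω hω
        exact hω.2
      have h6 := H (2 ^ k) (n k) h1 (by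
        push_cast
        refine h3.trans ?_
        have : (0 : ℝ) < 2 ^ k := by positivity
        nlinarith) (fun i => a (2 ^ k + i))
      refine h5.trans (h6.trans (ENNReal.ofReal_le_ofReal ?_))
      have h7 : 2 * Real.log k ≤ Real.sqrt (n k) := by
        apply Real.le_sqrt_of_sq_le
        calc (2 * Real.log (k : ℝ)) ^ 2 = 4 * Real.log (k : ℝ) ^ 2 := by ring
          _ ≤ (n k : ℝ) := h2
      calc Real.exp (-Real.sqrt (n k)) ≤ Real.exp (-(2 * Real.log k)) := by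
            apply Real.exp_le_exp.2; linarith
        _ = 1 / (k : ℝ) ^ 2 := by
            rw [Real.exp_neg, show 2 * Real.log k = Real.log k + Real.log k by ring, Real.exp_add,
              Real.exp_log hk0]
            field_simp
    · have : bad k = ∅ := by
        ext ω
        simp [hbaddef, hk]
      rw [this, measure_empty]
      exact bot_le
  have hsum : ∑' k, P (bad k) ≠ ⊤ := by
    refine ne_top_of_le_ne_top ?_ (ENNReal.tsum_le_tsum hb)
    have h1 : Summable fun k : ℕ => 1 / (k : ℝ) ^ 2 := Real.summable_one_div_nat_pow.2 (by norm_num)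
    exact h1.tsum_ofReal_ne_top
  filter_upwards [ae_eventually_notMem hsum, ae_lt_one hu] with ω h1 h2
  filter_upwards [h1, eventually_ge_atTop K] with k h3 h4
  have h5 : (fun i : Fin (2 ^ k) => u (2 ^ k + i) ω) ∉
      badSet c (2 ^ k) (n k) fun i => a (2 ^ k + i) := fun h => h3 ⟨h4, h⟩
  exact step n a u ω k ha (fun i => (h2 i).1) h5

end Pool.Agent.U180.NS
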